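import Pool.Agent.Y516.OJ.Stm

/-!
# OJ-CORR: the corruption inequality (helper689)
-/

set_option autoImplicit false

namespace Pool.Agent.Y689.OJ

open Finset Pool.Agent.Y516.OJ

theorem ind_cases (P : Prop) : (P ∧ ind P = 1) ∨ (¬ P ∧ ind P = 0) := by
  classical
  by_cases h : P
  · exact Or.inl ⟨h, by rw [ind, if_pos h]⟩
  · exact Or.inr ⟨h, by rw [ind, if_neg h]⟩

theorem ind_nonneg (P : Prop) : 0 ≤ ind P := by
  rcases ind_cases P with ⟨-, h⟩ | ⟨-, h⟩ <;> rw [h]
  exact zero_le_one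

theorem ind_congr {P Q : Prop} (h : P ↔ Q) : ind P = ind Q := by
  rw [propext h]

theorem ind_rpow (P : Prop) {p : ℝ} (hp : p ≠ 0) : ind P ^ p = ind P := by
  rcases ind_cases P with ⟨-, h⟩ | ⟨-, h⟩ <;> rw [h]
  · exact Real.one_rpow p
  · exact Real.zero_rpow hp

theorem prod_ind {ι : Type} [Fintype ι] (P : ι → Prop) : ∏ e, ind (P e) = ind (∀ e, P e) := by
  by_cases h : ∀ e, P e
  · rcases ind_cases (∀ e, P e) with ⟨-, h1⟩ | ⟨h1, -⟩
    · rw [h1]
      refine Finset.prod_eq_one fun e _ => ?_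
      rcases ind_cases (P e) with ⟨-, h2⟩ | ⟨h2, -⟩
      · exact h2
      · exact absurd (h e) h2
    · exact absurd h h1
  · rcases ind_cases (∀ e, P e) with ⟨h1, -⟩ | ⟨-, h1⟩
    · exact absurd h1 h
    · rw [h1]
      push Not at h
      obtain ⟨e, he⟩ := h
      refine Finset.prod_eq_zero (Finset.mem_univ e) ?_
      rcases ind_cases (P e) with ⟨h2, -⟩ | ⟨-, h2⟩
      · exact absurd h2 he
      · exact h2

theorem corr : EltStm → TenStm → CorrStm := by
  intro hElt hTen u k m α S F G hα hm h1m hS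
  have h1m' : (1 : ℝ) ≤ m := by exact_mod_cast h1m
  have hmα : (m : ℝ) * α ≤ 1 / 10 := by linarith
  have hα1 : α ≤ 1 / 10 := by
    have h1 : 1 * α ≤ m * α := by gcongr
    linarith
  have hwt : ∀ x : Fin k → Bool, 0 ≤ wt α x := by
    intro x
    refine Finset.prod_nonneg fun i _ => ?_
    split_ifs
    · exact hα.le
    · linarith
  have hWt : ∀ X : Fam u k, 0 ≤ Wt α X := fun X => Finset.prod_nonneg fun e _ => hwt (X e)
  have hp1 : 1 ≤ 1 + 2 * (m : ℝ) * α := by
    have : 0 ≤ 2 * (m : ℝ) * α := by positivity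
    linarith
  have hp0 : 1 + 2 * (m : ℝ) * α ≠ 0 := by linarith
  have hc : 0 ≤ 1 - α ^ 2 * S.card / 40 := by
    have h1 : (S.card : ℝ) ≤ m := by exact_mod_cast hS
    have h2 : α ^ 2 * S.card ≤ α ^ 2 * m := by gcongr
    have h3 : α ^ 2 * (m : ℝ) = α * (m * α) := by ring
    have h4 : α * (m * α) ≤ 1 * (1 / 10) := by
      apply mul_le_mul (by linarith) hmα (by positivity) zero_le_one
    linarith
  have key := hTen (Fin k → Bool) (Fin k → Bool) (wt α) (wt α)
    (fun x y => ind (∀ d ∈ S, ¬ (x d.1 = true ∧ y d.2 = true))) (1 + 2 * m * α)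
    (1 - α ^ 2 * S.card / 40) hwt hwt (fun x y => ind_nonneg _) hp1 hc
    (fun f g hf hg => hElt k m α S f g hα hm h1m hS hf hg) u (fun X => ind (F X = true))
    (fun Y => ind (G Y = true)) (fun X => ind_nonneg _) (fun Y => ind_nonneg _)
  have hL : EE α (fun X Y => ind (F X = true) * ind (G Y = true) * ind (∀ d ∈ S, Disj X Y d)) =
      ∑ x : Fin u → Fin k → Bool, ∑ y : Fin u → Fin k → Bool,
        (∏ e, wt α (x e)) * (∏ e, wt α (y e)) * (ind (F x = true) * ind (G y = true) *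
          ∏ e, ind (∀ d ∈ S, ¬ (x e d.1 = true ∧ y e d.2 = true))) := by
    unfold EE Wt
    refine Finset.sum_congr rfl fun X _ => Finset.sum_congr rfl fun Y _ => ?_
    have e : ind (∀ d ∈ S, Disj X Y d) =
        ind (∀ e, ∀ d ∈ S, ¬ (X e d.1 = true ∧ Y e d.2 = true)) :=
      ind_congr ⟨fun h e d hd => h d hd e, fun h d hd e => h e d hd⟩
    rw [prod_ind]
    show _ * (_ * _ * ind (∀ d ∈ S, Disj X Y d)) = _
    rw [e]
  rw [hL]
  refine key.trans (le_of_eq ?_)
  congr 1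
  have hf : ∀ H : Fam u k → Bool, (∑ x : Fin u → Fin k → Bool, (∏ e, wt α (x e)) *
      ind (H x = true) ^ (1 + 2 * m * α)) = ∑ X, Wt α X * ind (H X = true) := by
    intro H
    refine Finset.sum_congr rfl fun X _ => ?_
    rw [ind_rpow _ hp0]
    rfl
  rw [hf F, hf G, ← Real.mul_rpow (Finset.sum_nonneg fun X _ => mul_nonneg (hWt X) (ind_nonneg _))
    (Finset.sum_nonneg fun X _ => mul_nonneg (hWt X) (ind_nonneg _)), Finset.sum_mul_sum]
  congr 1
  unfold EE
  refine Finset.sum_congr rfl fun X _ => Finset.sum_congr rfl fun Y _ => ?_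
  ring

end Pool.Agent.Y689.OJ
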